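import Pool.Agent.Helper14.FO.Defs2

/-! MP_190084_co, module CVC: the fractional clique cover number and random independent sets of the complement. -/

set_option autoImplicit false

namespace Pool.Agent.Helper14.FO

open Finset

theorem cvc_nonempty (n : ℕ) (G : SimpleGraph (Fin n)) : (CliqueCovers G).Nonempty := by
  classical
  refine ⟨_, fun K => if K.card = 1 then 1 else 0, ?_, ?_, ?_, rfl⟩
  · intro K
    show (0 : ℝ) ≤ if K.card = 1 then 1 else 0
    by_cases h : K.card = 1
    · rw [if_pos h]; exact zero_le_one
    · rw [if_neg h]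
  · intro K hK x hx y hy hxy
    have h : K.card = 1 := by
      by_contra h
      exact hK (if_neg h)
    obtain ⟨a, rfl⟩ := Finset.card_eq_one.mp h
    rw [Finset.mem_singleton] at hx hy
    exact absurd (hx.trans hy.symm) hxy
  · intro x
    have h := Finset.single_le_sum (f := fun K : Finset (Fin n) => if x ∈ K then (if K.card = 1 then (1 : ℝ) else 0) else 0)
      (fun K _ => by
        by_cases h1 : x ∈ K
        · rw [if_pos h1]
          by_cases h2 : K.card = 1
          · rw [if_pos h2]; exact zero_le_one
          · rw [if_neg h2]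
        · rw [if_neg h1]) (Finset.mem_univ ({x} : Finset (Fin n)))
    simp only [Finset.mem_singleton, Finset.card_singleton, if_true] at h
    exact h

theorem cvc_bdd (n : ℕ) (G : SimpleGraph (Fin n)) : ∀ c ∈ CliqueCovers G, 0 ≤ c := by
  rintro c ⟨w, h0, _, _, rfl⟩
  exact Finset.sum_nonneg fun K _ => h0 K

theorem cvc_up (n : ℕ) (G : SimpleGraph (Fin n)) (c : ℝ) (hc : c ∈ CliqueCovers G) : UpW Gᶜ c := by
  classical
  have hc0 := cvc_bdd n G c hc
  obtain ⟨w, h0, h1, h2, h3⟩ := hc
  rcases hc0.eq_or_lt with he | hpos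
  · have hn : IsEmpty (Fin n) := by
      by_contra hne
      rw [not_isEmpty_iff] at hne
      obtain ⟨x⟩ := hne
      have hw : ∀ K, w K = 0 := by
        intro K
        have h4 := Finset.single_le_sum (f := w) (fun K _ => h0 K) (Finset.mem_univ K)
        rw [h3, ← he] at h4
        exact le_antisymm h4 (h0 K)
      have h5 := h2 x
      have h6 : ∑ K, (if x ∈ K then w K else 0) = 0 := by
        apply Finset.sum_eq_zero
        intro K _
        rw [hw K, ite_self]
      rw [h6] at h5
      linarith
    refine ⟨Unit, inferInstance, fun _ => 1, fun _ _ => false, fun _ => zero_le_one, ?_, ?_, ?_⟩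
    · simp
    · intro j x
      exact (hn.false x).elim
    · intro y
      exact (hn.false y).elim
  · refine ⟨Finset (Fin n), inferInstance, fun K => w K / c, fun K x => decide (x ∈ K ∧ w K ≠ 0), ?_, ?_, ?_, ?_⟩
    · intro K
      exact div_nonneg (h0 K) hc0
    · rw [← Finset.sum_div, h3, div_self hpos.ne']
    · intro K x y hx hy hadj
      have hx' := of_decide_eq_true hx
      have hy' := of_decide_eq_true hy
      rw [SimpleGraph.compl_adj] at hadj
      exact hadj.2 (h1 K hx'.2 x hx'.1 y hy'.1 hadj.1)
    · intro y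
      refine (h2 y).trans (le_of_eq ?_)
      rw [Finset.mul_sum]
      apply Finset.sum_congr rfl
      intro K _
      by_cases h4 : y ∈ K
      · by_cases h5 : w K = 0
        · have h6 : ¬ (decide (y ∈ K ∧ w K ≠ 0) = true) := by
            intro h7
            exact (of_decide_eq_true h7).2 h5
          rw [if_pos h4, if_neg h6, h5, mul_zero]
        · have h6 : decide (y ∈ K ∧ w K ≠ 0) = true := decide_eq_true ⟨h4, h5⟩
          rw [if_pos h4, if_pos h6]
          field_simp
      · have h6 : ¬ (decide (y ∈ K ∧ w K ≠ 0) = true) := by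
          intro h7
          exact h4 (of_decide_eq_true h7).1
        rw [if_neg h4, if_neg h6, mul_zero]

theorem cvc_down (n : ℕ) (G : SimpleGraph (Fin n)) (c : ℝ) (hc : 0 ≤ c) (h : UpW Gᶜ c) : c ∈ CliqueCovers G := by
  classical
  obtain ⟨J, _, p, I, h0, h1, h2, h3⟩ := h
  set S : J → Finset (Fin n) := fun j => univ.filter fun x => I j x = true with hS
  have hmem : ∀ j x, x ∈ S j ↔ I j x = true := by
    intro j x
    rw [hS]
    simp
  refine ⟨fun K => c * ∑ j, if S j = K then p j else 0, ?_, ?_, ?_, ?_⟩
  · intro K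
    apply mul_nonneg hc
    apply Finset.sum_nonneg
    intro j _
    by_cases h4 : S j = K
    · rw [if_pos h4]; exact h0 j
    · rw [if_neg h4]
  · intro K hK x hx y hy hxy
    have h4 : ∃ j, S j = K := by
      by_contra hcon
      push Not at hcon
      apply hK
      have h5 : ∑ j, (if S j = K then p j else 0) = 0 := by
        apply Finset.sum_eq_zero
        intro j _
        rw [if_neg (hcon j)]
      show c * ∑ j, (if S j = K then p j else 0) = 0
      rw [h5, mul_zero]
    obtain ⟨j, rfl⟩ := h4
    have h5 := h2 j x y ((hmem j x).mp hx) ((hmem j y).mp hy)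
    rw [SimpleGraph.compl_adj] at h5
    by_contra h6
    exact h5 ⟨hxy, h6⟩
  · intro x
    refine (h3 x).trans (le_of_eq ?_)
    have h4 : ∀ K : Finset (Fin n), (if x ∈ K then c * ∑ j, (if S j = K then p j else 0) else 0) =
        c * ∑ j, (if S j = K then (if x ∈ K then p j else 0) else 0) := by
      intro K
      by_cases h5 : x ∈ K
      · simp only [if_pos h5]
      · simp only [if_neg h5, ite_self, Finset.sum_const_zero, mul_zero]
    rw [Finset.sum_congr rfl (fun K _ => h4 K), ← Finset.mul_sum, Finset.sum_comm]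
    congr 1
    apply Finset.sum_congr rfl
    intro j _
    rw [Finset.sum_ite_eq Finset.univ (S j) (fun K => if x ∈ K then p j else 0), if_pos (Finset.mem_univ _)]
    by_cases h5 : I j x = true
    · rw [if_pos h5, if_pos ((hmem j x).mpr h5)]
    · rw [if_neg h5, if_neg (fun h6 => h5 ((hmem j x).mp h6))]
  · rw [← Finset.mul_sum, Finset.sum_comm]
    have h4 : ∀ j, ∑ K : Finset (Fin n), (if S j = K then p j else 0) = p j := by
      intro j
      rw [Finset.sum_ite_eq Finset.univ (S j) (fun _ => p j), if_pos (Finset.mem_univ _)]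
    rw [Finset.sum_congr rfl (fun j _ => h4 j), h1, mul_one]

theorem st_CVC : ST_CVC := by
  intro n G c
  constructor
  · intro h
    obtain ⟨c₁, hc₁, hlt⟩ := exists_lt_of_csInf_lt (cvc_nonempty n G) h
    exact ⟨c₁, hlt, cvc_up n G c₁ hc₁⟩
  · intro hc hlt hup
    have h1 : fracCliqueCover G ≤ c := csInf_le ⟨0, fun a ha => cvc_bdd n G a ha⟩ (cvc_down n G c hc hup)
    exact absurd (h1.trans_lt hlt) (lt_irrefl _)

end Pool.Agent.Helper14.FO
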